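import Pool.Agent.W619.Y.Stm
import Pool.Agent.W619.X.Basis

/-! Growth of the pluricanonical forms on the quotient. -/

set_option autoImplicit false
set_option linter.overlappingInstances false
set_option linter.unusedSectionVars false

universe u v

open FF IntermediateField Pool.Agent.W619.PQ Pool.Agent.W619.PL Pool.Agent.W619.TW
  Pool.Agent.W603.LV Pool.Agent.W619.Y

namespace Pool.Agent.W303.PG

section gen

variable {k L : Type*} [Field k] [Field L] [Algebra k L]

theorem esymm_indep {ι : Type*} [Fintype ι] (f : ι → L) (hf : AlgebraicIndependent k f) {a : ℕ}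
    (ha : a ≤ Fintype.card ι) : AlgebraicIndependent k
      (fun l : Fin a => MvPolynomial.aeval f (MvPolynomial.esymm ι k (l + 1))) := by
  have h1 : AlgebraicIndependent k
      (fun l : Fin a => (MvPolynomial.esymm ι k (l + 1) : MvPolynomial ι k)) := by
    intro p q hpq
    apply MvPolynomial.esymmAlgHom_injective k ha
    apply Subtype.ext
    rw [MvPolynomial.esymmAlgHom_apply, MvPolynomial.esymmAlgHom_apply]
    exact hpq
  exact h1.map' (f := MvPolynomial.aeval f) hf

theorem esymm_inv {ι : Type*} [Fintype ι] (f : ι → L) (g : L ≃ₐ[k] L) (τ : Equiv.Perm ι)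
    (h : ∀ i, g (f i) = f (τ i)) (l : ℕ) :
    g (MvPolynomial.aeval f (MvPolynomial.esymm ι k l)) =
      MvPolynomial.aeval f (MvPolynomial.esymm ι k l) := by
  have h1 : (g : L →ₐ[k] L).comp (MvPolynomial.aeval f) =
      (MvPolynomial.aeval f).comp (MvPolynomial.rename τ : MvPolynomial ι k →ₐ[k] _) := by
    apply MvPolynomial.algHom_ext
    intro i
    simp [h]
  have h2 := congrArg (fun φ : MvPolynomial ι k →ₐ[k] L => φ (MvPolynomial.esymm ι k l)) h1
  simp only [AlgHom.comp_apply, MvPolynomial.rename_esymm] at h2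
  exact h2

theorem mono_indep {a j : ℕ} (f : Fin a → L) (hf : AlgebraicIndependent k f) :
    LinearIndependent k (fun r : Fin a → Fin j => ∏ l, f l ^ (r l : ℕ)) := by
  have h1 := (MvPolynomial.basisMonomials (Fin a) k).linearIndependent
  have h2 : Function.Injective (fun r : Fin a → Fin j =>
      (Finsupp.equivFunOnFinite.symm (fun l => (r l : ℕ)) : Fin a →₀ ℕ)) := by
    intro r s hrs
    have h3 := Finsupp.equivFunOnFinite.symm.injective hrs
    funext l
    exact Fin.ext (congrFun h3 l)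
  have h3 := (h1.comp _ h2).map' (MvPolynomial.aeval f : MvPolynomial (Fin a) k →ₐ[k] L).toLinearMap
    (LinearMap.ker_eq_bot.2 hf)
  have e : (fun r : Fin a → Fin j => ∏ l, f l ^ (r l : ℕ)) =
      (MvPolynomial.aeval f : MvPolynomial (Fin a) k →ₐ[k] L).toLinearMap ∘
        (MvPolynomial.basisMonomials (Fin a) k) ∘ (fun r : Fin a → Fin j =>
          (Finsupp.equivFunOnFinite.symm (fun l => (r l : ℕ)) : Fin a →₀ ℕ)) := by
    funext r
    simp [MvPolynomial.aeval_monomial, Finsupp.prod_fintype]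
  rw [e]
  exact h3

theorem dom_of_reg {K : Type*} [Field K] [Algebra k K] {v : Place k K} {f : K} (h : v.Reg f) :
    Dom v {1} 0 f := by
  rcases h with h | h
  · exact Or.inl h
  · right
    exact ⟨1, by simp, one_ne_zero, by simpa using h⟩

theorem good_nz {m : ℕ} {b : L} (hb : b ≠ 0)
    {w : Place k L} {z : L} (h : (m : ℤ) ≤ w.ord (b * z ^ m)) : b * z ^ m ≠ 0 := by
  rcases Nat.eq_zero_or_pos m with h0 | h0
  · subst h0
    simpa using hb
  · intro h1
    rw [h1, w.ord_zero] at h
    omega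

theorem good_mul {Q : IntermediateField k L} {N m m' : ℕ} {x b b' : L} (hb : b ≠ 0)
    (hb' : b' ≠ 0) (h : GoodAt Q N m x b) (h' : GoodAt Q N m' x b') :
    GoodAt Q N (m + m') x (b * b') := by
  intro w u hu hu0 hd ρ hρ
  obtain ⟨a1, a2⟩ := h w u hu hu0 hd ρ hρ
  obtain ⟨b1, b2⟩ := h' w u hu hu0 hd ρ hρ
  have n1 := good_nz hb a2
  have n2 := good_nz hb' b2
  have e : b * b' * (ρ * u) ^ (m + m') = (b * (ρ * u) ^ m) * (b' * (ρ * u) ^ m') := by
    rw [pow_add]; ring
  rw [e, w.ord_mul n1 n2]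
  push_cast
  constructor
  · rw [add_mul, mul_add]; exact add_le_add a1 b1
  · exact add_le_add a2 b2

theorem good_one {Q : IntermediateField k L} {N : ℕ} {x : L} : GoodAt Q N 0 x 1 := by
  intro w u hu hu0 hd ρ hρ
  simp [w.ord_one]

end gen

section span

variable {k L : Type*} [Field k] [Field L] [Algebra k L] {n : ℕ}

/-- products of good forms of weight `M m` -/
def SG (Q : Fin n → IntermediateField k L) (N m : ℕ) (x : Fin n → L) (M : ℕ) : Set L :=
  {z | ∃ b : Fin n → L, (∀ i, b i ∈ Q i) ∧ (∀ i, b i ≠ 0) ∧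
    (∀ i, GoodAt (Q i) N (M * m) (x i) (b i)) ∧ z = ∏ i, b i}

/-- the span -/
def VG (Q : Fin n → IntermediateField k L) (N m : ℕ) (x : Fin n → L) (M : ℕ) : Submodule k L :=
  Submodule.span k (SG Q N m x M)

variable {Q : Fin n → IntermediateField k L} {N m : ℕ} {x : Fin n → L}

theorem VG.one : (1 : L) ∈ VG Q N m x 0 := by
  apply Submodule.subset_span
  refine ⟨fun _ => 1, fun i => one_mem _, fun i => one_ne_zero, fun i => ?_, by simp⟩
  rw [Nat.zero_mul]
  exact good_one

theorem VG.mul {M M' : ℕ} {a b : L} (ha : a ∈ VG Q N m x M) (hb : b ∈ VG Q N m x M') :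
    a * b ∈ VG Q N m x (M + M') := by
  have h1 : a * b ∈ VG Q N m x M * VG Q N m x M' := Submodule.mul_mem_mul ha hb
  unfold VG at h1
  rw [Submodule.span_mul_span] at h1
  refine Submodule.span_mono ?_ h1
  rintro _ ⟨_, ⟨c, c1, c2, c3, rfl⟩, _, ⟨d, d1, d2, d3, rfl⟩, rfl⟩
  refine ⟨fun i => c i * d i, fun i => mul_mem (c1 i) (d1 i), fun i => mul_ne_zero (c2 i) (d2 i),
    fun i => ?_, by simp [Finset.prod_mul_distrib]⟩
  rw [add_mul]
  exact good_mul (c2 i) (d2 i) (c3 i) (d3 i)

theorem VG.pow {M : ℕ} {a : L} (ha : a ∈ VG Q N m x M) (p : ℕ) : a ^ p ∈ VG Q N m x (p * M) := by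
  induction p with
  | zero => rw [pow_zero, Nat.zero_mul]; exact VG.one
  | succ p ih => rw [pow_succ, Nat.succ_mul]; exact VG.mul ih ha

theorem VG.prod {ι : Type*} (s : Finset ι) (f : ι → L) (M : ι → ℕ)
    (h : ∀ l ∈ s, f l ∈ VG Q N m x (M l)) : ∏ l ∈ s, f l ∈ VG Q N m x (∑ l ∈ s, M l) := by
  classical
  induction s using Finset.induction_on with
  | empty => simpa using VG.one
  | insert a s ha ih =>
    rw [Finset.prod_insert ha, Finset.sum_insert ha]
    exact VG.mul (h a (Finset.mem_insert_self a s)) (ih fun i hi => h i (Finset.mem_insert_of_mem hi))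

open scoped Classical in
theorem VG.esymm (H : Set (Fin n)) (f c c' : Fin n → L) (hc : ∀ i, c i ∈ Q i)
    (hc0 : ∀ i, c i ≠ 0) (hc' : ∀ i, c' i ∈ Q i) (hc0' : ∀ i, c' i ≠ 0)
    (hg : ∀ i, GoodAt (Q i) N m (x i) (c i)) (hg' : ∀ i, GoodAt (Q i) N m (x i) (c' i))
    (hf : ∀ i ∈ H, f i = c' i / c i) (l : ℕ) :
    (∏ i, c i) * MvPolynomial.aeval (fun i : H => f i) (MvPolynomial.esymm H k l) ∈
      VG Q N m x 1 := by
  have e1 : MvPolynomial.aeval (fun i : H => f i) (MvPolynomial.esymm H k l) =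
      ∑ t ∈ Finset.powersetCard l (Finset.univ : Finset H), ∏ i ∈ t, f i := by
    simp [MvPolynomial.esymm]
  rw [e1, Finset.mul_sum]
  refine Submodule.sum_mem _ fun t _ => Submodule.subset_span ?_
  let T : Finset (Fin n) := t.map (Function.Embedding.subtype _)
  have hTH : ∀ i ∈ T, i ∈ H := by
    intro i hi
    obtain ⟨j, _, rfl⟩ := Finset.mem_map.1 hi
    exact j.2
  refine ⟨fun i => if i ∈ T then c' i else c i, fun i => ?_, fun i => ?_, fun i => ?_, ?_⟩
  · by_cases hi : i ∈ T
    · simp only [if_pos hi]; exact hc' i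
    · simp only [if_neg hi]; exact hc i
  · by_cases hi : i ∈ T
    · simp only [if_pos hi]; exact hc0' i
    · simp only [if_neg hi]; exact hc0 i
  · rw [Nat.one_mul]
    by_cases hi : i ∈ T
    · simp only [if_pos hi]; exact hg' i
    · simp only [if_neg hi]; exact hg i
  · have e2 : ∏ i ∈ t, f i = ∏ i ∈ T, f i := by
      rw [Finset.prod_map]; rfl
    have e3 : ∏ i ∈ T, f i = ∏ i, (if i ∈ T then f i else 1) := by
      rw [Finset.prod_ite_mem, Finset.univ_inter]
    rw [e2, e3, ← Finset.prod_mul_distrib]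
    refine Finset.prod_congr rfl fun i _ => ?_
    by_cases hi : i ∈ T
    · simp only [if_pos hi]
      rw [hf i (hTH i hi), mul_div_cancel₀ _ (hc0 i)]
    · simp only [if_neg hi, mul_one]

theorem VG.reg {M : ℕ} {B Δ : L} {w : Place k L} (hB : B ∈ VG Q N m x M)
    (h : ∀ b : Fin n → L, (∀ i, b i ∈ Q i) → (∀ i, b i ≠ 0) →
      (∀ i, GoodAt (Q i) N (M * m) (x i) (b i)) → Ge w 0 ((∏ i, b i) * Δ)) :
    Ge w 0 (B * Δ) := by
  refine Submodule.span_induction (p := fun z _ => Ge w 0 (z * Δ)) ?_ ?_ ?_ ?_ hB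
  · rintro _ ⟨b, b1, b2, b3, rfl⟩
    exact h b b1 b2 b3
  · rw [zero_mul]; exact Ge.zero
  · intro a b _ _ ha hb
    rw [add_mul]; exact ha.add hb
  · intro c a _ ha
    rw [Algebra.smul_def, mul_assoc]
    simpa using (Ge.const (P := w) c).mul ha

end span


section main

variable {k : Type v} {L : Type u} [Field k] [CharZero k] [Field L] [Algebra k L]

theorem alg_fixed (G : Subgroup (L ≃ₐ[k] L)) [Finite G] : Algebra.IsAlgebraic (fixedField G) L := by
  have := fixed_finite G
  infer_instance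

theorem trans_sub (F : IntermediateField k L) {z : L} (hz : z ∈ F) (h : Transcendental k z) :
    Transcendental k (⟨z, hz⟩ : F) := fun h1 => h (h1.algebraMap (A := L))

theorem basis_eq {n : ℕ} (hn : Algebra.trdeg k L = n) (y : Fin n → L)
    (hy : AlgebraicIndependent k y) : IsTranscendenceBasis k y := by
  refine hy.isTranscendenceBasis_of_lift_trdeg_le_of_finite ?_
  rw [hn]
  simp

/-- derivations of the fixed field with nonzero Jacobian determinant -/
theorem exists_der (h1 : S_EXT.{u, v}) (n : ℕ) (hn : Algebra.trdeg k L = n)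
    (G : Subgroup (L ≃ₐ[k] L)) [Finite G] (x : Fin n → L) (hx : IsTranscendenceBasis k x)
    (τ : G → Equiv.Perm (Fin n)) (hτ : ∀ (g : G) i, (g : L ≃ₐ[k] L) (x i) = x (τ g i)) :
    Algebra.trdeg k (fixedField G) = n ∧
    ∃ (D : Fin n → Derivation k (fixedField G) (fixedField G)) (D' : Fin n → Derivation k L L),
      (∀ j (f : fixedField G), D' j (f : L) = (D j f : L)) ∧
      (Matrix.of fun i j => D' j (x i)).det ≠ 0 := by
  classical
  have halg := alg_fixed G
  let y : Fin n → L := fun l => MvPolynomial.aeval x (MvPolynomial.esymm (Fin n) k (l + 1))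
  have hyi : AlgebraicIndependent k y := esymm_indep x hx.1 (by simp)
  have hyb : IsTranscendenceBasis k y := basis_eq hn y hyi
  have hyG : ∀ l, y l ∈ fixedField G := by
    intro l g
    exact esymm_inv x (g : L ≃ₐ[k] L) (τ g) (hτ g) _
  let yK : Fin n → fixedField G := fun l => ⟨y l, hyG l⟩
  have hyK : IsTranscendenceBasis k yK := basis_down (L := L) hn yK hyb
  have hnK : Algebra.trdeg k (fixedField G) = n := by
    have := hyK.lift_cardinalMk_eq_trdeg
    simpa using this.symm
  refine ⟨hnK, ?_⟩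
  choose D hD using fun j => exists_dual yK hyK j
  choose D' hD' hD'' using fun j => h1 k (fixedField G) L n hnK (D j)
  refine ⟨D, D', hD', ?_⟩
  intro hdet
  obtain ⟨v, hv0, hv⟩ := Matrix.exists_mulVec_eq_zero_iff.2 hdet
  apply hv0
  let d : Derivation k L L := ∑ j, v j • D' j
  have hd : ∀ z, d z = ∑ j, v j * D' j z := by
    intro z
    have e : (Derivation.coeFnAddMonoidHom (∑ j, v j • D' j) : L → L) z =
        (∑ j, Derivation.coeFnAddMonoidHom (v j • D' j) : L → L) z := by
      rw [map_sum]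
    rw [Finset.sum_apply] at e
    exact e
  have hd0 : ∀ z, d z = 0 := by
    refine der_zero d x hx fun i => ?_
    rw [hd]
    have := congrFun hv i
    simp only [Matrix.mulVec, dotProduct, Matrix.of_apply, Pi.zero_apply] at this
    rw [← this]
    exact Finset.sum_congr rfl fun j _ => mul_comm _ _
  funext l
  have h3 := hd0 (y l)
  rw [hd] at h3
  have h4 : ∀ j, D' j (y l) = if l = j then 1 else 0 := by
    intro j
    have := hD' j (yK l)
    rw [hD j l] at this
    change D' j (y l) = algebraMap (fixedField G) L (if l = j then 1 else 0) at this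
    rw [this]
    by_cases hlj : l = j
    · rw [if_pos hlj, if_pos hlj, map_one]
    · rw [if_neg hlj, if_neg hlj, map_zero]
  simp only [h4, mul_ite, mul_one, mul_zero, Finset.sum_ite_eq, Finset.mem_univ, if_true] at h3
  exact h3

open scoped Classical in
theorem main (h1 : S_EXT.{u, v}) (h2 : S_FORM.{u, v}) (h3 : S_REG.{u, v}) : S_KOD.{u, v} := by
  intro k L _ _ _ _ _ n F hF G _ σ hn halg hG N m hN hfree hm hme H x c c' hH hxQ hxt hxg
    hcQ hc0 hcQ' hc0' hcg hcg' hgood hgood' htr
  -- bases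
  have hxb : IsTranscendenceBasis k x :=
    Pool.Agent.W619.X.basis_of_alg F halg hn (fun i => ⟨x i, (hxQ i).1⟩)
      (fun i => trans_sub (F i) (hxQ i).1 (hxt i))
  let f : Fin n → L := fun i => if i ∈ H then c' i / c i else x i
  have hfH : ∀ i ∈ H, f i = c' i / c i := fun i hi => if_pos hi
  have hfF : ∀ i, f i ∈ F i := by
    intro i
    by_cases hi : i ∈ H
    · rw [hfH i hi]; exact div_mem (hcQ' i).1 (hcQ i).1
    · have : f i = x i := if_neg hi
      rw [this]; exact (hxQ i).1
  have hft : ∀ i, Transcendental k (f i) := by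
    intro i
    by_cases hi : i ∈ H
    · rw [hfH i hi]; exact htr i hi
    · have : f i = x i := if_neg hi
      rw [this]; exact hxt i
  have hfb : IsTranscendenceBasis k f :=
    Pool.Agent.W619.X.basis_of_alg F halg hn (fun i => ⟨f i, hfF i⟩)
      (fun i => trans_sub (F i) (hfF i) (hft i))
  have hHiff : ∀ (g : G) i, σ g i ∈ H ↔ i ∈ H := by
    intro g i
    constructor
    · intro h
      have := hH g⁻¹ _ h
      rwa [← Equiv.Perm.mul_apply, ← map_mul, inv_mul_cancel, map_one] at this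
    · exact hH g i
  have hcard : H.ncard = Fintype.card H := by
    rw [← Nat.card_coe_set_eq, Nat.card_eq_fintype_card]
  generalize hadef : H.ncard = a at hcard
  let fH : H → L := fun i => f i
  have hfHi : AlgebraicIndependent k fH := hfb.1.comp _ Subtype.val_injective
  let uu : Fin a → L := fun l => MvPolynomial.aeval fH (MvPolynomial.esymm H k (l + 1))
  have hu : AlgebraicIndependent k uu := esymm_indep fH hfHi hcard.le
  have hug : ∀ (g : G) l, (g : L ≃ₐ[k] L) (uu l) = uu l := by
    intro g l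
    let τ : Equiv.Perm H :=
      { toFun := fun i => ⟨σ g i, (hHiff g i).2 i.2⟩
        invFun := fun i => ⟨σ g⁻¹ i, (hHiff g⁻¹ i).2 i.2⟩
        left_inv := fun i => by
          apply Subtype.ext
          change σ g⁻¹ (σ g i) = i
          rw [← Equiv.Perm.mul_apply, ← map_mul, inv_mul_cancel, map_one]; rfl
        right_inv := fun i => by
          apply Subtype.ext
          change σ g (σ g⁻¹ i) = i
          rw [← Equiv.Perm.mul_apply, ← map_mul, mul_inv_cancel, map_one]; rfl }
    refine esymm_inv fH (g : L ≃ₐ[k] L) τ (fun i => ?_) _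
    change (g : L ≃ₐ[k] L) (f i) = f (σ g i)
    rw [hfH i i.2, hfH _ ((hHiff g i).2 i.2), map_div₀, hcg, hcg']
  let C : L := ∏ i, c i
  have hC0 : C ≠ 0 := Finset.prod_ne_zero_iff.2 fun i _ => hc0 i
  have hCV : C ∈ VG (Quo G σ F) N m x 1 := by
    apply Submodule.subset_span
    exact ⟨c, hcQ, hc0, fun i => by rw [Nat.one_mul]; exact hgood i, rfl⟩
  have huV : ∀ l, C * uu l ∈ VG (Quo G σ F) N m x 1 := fun l =>
    VG.esymm H f c c' hcQ hc0 hcQ' hc0' hgood hgood' hfH _
  have hCg : ∀ g : G, (g : L ≃ₐ[k] L) C = C := by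
    intro g
    change (g : L ≃ₐ[k] L) (∏ i, c i) = ∏ i, c i
    rw [map_prod]
    simp only [hcg]
    exact Equiv.prod_comp (σ g) c
  obtain ⟨hnK, D0, D0', hD0, hdet⟩ := exists_der h1 n hn G x hxb (fun g => σ g) hxg
  refine ⟨m * (a + 1), Nat.mul_pos hm (Nat.succ_pos a), fun j hj => ?_⟩
  let M : ℕ := j * (a + 1)
  have hMm : M * m = j * (m * (a + 1)) := by
    change j * (a + 1) * m = j * (m * (a + 1)); ring
  have hrM : ∀ r : Fin a → Fin j, ∑ l, (r l : ℕ) ≤ M := by
    intro r
    calc ∑ l, (r l : ℕ) ≤ ∑ _l : Fin a, j := Finset.sum_le_sum fun l _ => (r l).2.le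
      _ = a * j := by simp
      _ ≤ j * (a + 1) := by nlinarith
  let B : (Fin a → Fin j) → L := fun r =>
    C ^ (M - ∑ l, (r l : ℕ)) * ∏ l, (C * uu l) ^ (r l : ℕ)
  have hBV : ∀ r, B r ∈ VG (Quo G σ F) N m x M := by
    intro r
    have h4 := VG.mul (VG.pow hCV (M - ∑ l, (r l : ℕ)))
      (VG.prod Finset.univ (fun l => (C * uu l) ^ (r l : ℕ)) (fun l => (r l : ℕ) * 1)
        fun l _ => VG.pow (huV l) _)
    have h5 : (M - ∑ l, (r l : ℕ)) * 1 + ∑ l, (r l : ℕ) * 1 = M := by
      simp only [mul_one]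
      exact Nat.sub_add_cancel (hrM r)
    rw [h5] at h4
    exact h4
  have hBval : ∀ r, B r = C ^ M * ∏ l, uu l ^ (r l : ℕ) := by
    intro r
    change C ^ (M - ∑ l, (r l : ℕ)) * ∏ l, (C * uu l) ^ (r l : ℕ) = _
    simp only [mul_pow]
    rw [Finset.prod_mul_distrib, Finset.prod_pow_eq_pow_sum, ← mul_assoc, ← pow_add,
      Nat.sub_add_cancel (hrM r)]
  have hBg : ∀ r (g : G), (g : L ≃ₐ[k] L) (B r) = B r := by
    intro r g
    rw [hBval, map_mul, map_pow, hCg, map_prod]
    simp only [map_pow, hug]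
  choose ω hω1 hω2 using fun r => h2 k L n G σ x (M * m) (B r) hn hxg (hme.mul_left _) (hBg r)
  have hli : LinearIndependent k ω := by
    let φ : ((Fin n → Derivation k (fixedField G) (fixedField G)) → fixedField G) →ₗ[k] L :=
      (IsScalarTower.toAlgHom k (fixedField G) L).toLinearMap.comp (LinearMap.proj D0)
    refine LinearIndependent.of_comp φ ?_
    let W : L := C ^ M * (Matrix.of fun i j => D0' j (x i)).det ^ (M * m)
    have hW : W ≠ 0 := mul_ne_zero (pow_ne_zero _ hC0) (pow_ne_zero _ hdet)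
    have e : φ ∘ ω = (LinearMap.mulLeft k W) ∘ fun r : Fin a → Fin j =>
        ∏ l, uu l ^ (r l : ℕ) := by
      funext r
      change ((ω r D0 : fixedField G) : L) = W * ∏ l, uu l ^ (r l : ℕ)
      rw [hω2 r D0 D0' hD0, hBval]
      ring
    rw [e]
    exact (mono_indep uu hu).map' (LinearMap.mulLeft k W)
      (LinearMap.ker_eq_bot.2 (mul_right_injective₀ hW))
  have hcardr : Fintype.card (Fin a → Fin j) = j ^ a := by simp
  let e : Fin (j ^ a) ≃ (Fin a → Fin j) := (Fintype.equivFinOfCardEq hcardr).symm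
  refine ⟨fun l => ω (e l), hli.comp e e.injective, fun l => ⟨?_, ?_, ?_⟩⟩
  · rw [← hMm]; exact hω1 _
  · intro v _ _ D hD
    apply dom_of_reg
    obtain ⟨w, d, hwv, hreg⟩ := h3 k L n F G σ hn halg hG N hN hfree x hxQ hxt hxg v
    have halgK := alg_fixed G
    choose D' hD' hD'' using fun j => h1 k (fixedField G) L n hnK (D j)
    rw [← hwv.reg]
    change Ge w 0 ((ω (e l) D : fixedField G) : L)
    rw [hω2 (e l) D D' hD']
    exact VG.reg (hBV (e l)) fun b b1 b2 b3 => hreg (M * m) b b1 b2 b3 D D' hD hD'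
  · intro v _ hv
    exact hv.elim

end main

end Pool.Agent.W303.PG
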